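import Pool.Agent.H32.RandShell

set_option autoImplicit false

namespace Pool.Agent.Results.MP_87030c_co.AlmostAll

open Pool.Agent.H32.RandShell Finset Filter Topology

open Classical in
/-- For every fixed facet size `d ≥ 1`, the proportion of shellable complexes among all families
of `d`-subsets of an `m`-set tends to 1. -/
theorem result (d : ℕ) (hd : 1 ≤ d) : Tendsto (fun m : ℕ =>
    (((powersetCard d (univ : Finset (Fin m))).powerset.filter (Shellable d)).card : ℝ) /
      2 ^ (m.choose d)) atTop (𝓝 1) := by
  obtain ⟨e, rfl⟩ := Nat.exists_eq_add_of_le' hd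
  exact main e

end Pool.Agent.Results.MP_87030c_co.AlmostAll
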